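import Pool.Agent.H20.DP

namespace Pool.Agent.Results.MP_28c1b3_co.OddOne

open Finset H20.DP

theorem result :
    (∀ n : ℕ, Odd n → ∃ F ⊆ (Icc 1 n).powerset, Avoiding 1 F ∧ d (Fstar n 1) < d F) ∧
    ¬ (∀ t : ℕ, 1 ≤ t → ∃ n₀ : ℕ, ∀ n : ℕ, n₀ ≤ n → ∀ F ⊆ (Icc 1 n).powerset,
        Avoiding t F → d F ≤ d (Fstar n t)) := by
  refine ⟨main, fun h => ?_⟩
  obtain ⟨n₀, h⟩ := h 1 le_rfl
  obtain ⟨F, hF, hA, hd⟩ := main (2 * n₀ + 1) ⟨n₀, rfl⟩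
  have := h (2 * n₀ + 1) (by omega) F hF hA
  omega

end Pool.Agent.Results.MP_28c1b3_co.OddOne
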